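import Mathlib
import Pool.Agent.Helper22.Sym.Pos

/-! S5, universal bound, leaf (4): the scatter identity of a Kuhn chain and the weighted Cauchy inequality. -/

set_option autoImplicit false

namespace Pool.Agent.Helper21.UB

open Matrix Pool.Agent.Helper22.Sym

/-- weighted Cauchy inequality for four pairs of vectors -/
theorem cauchy4 (G : Matrix (Fin 3) (Fin 3) ℝ) (hG : G.PosDef) (v x : Fin 4 → Fin 3 → ℝ) (a : Fin 4 → ℝ)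
    (ha : ∀ j, 0 < a j) :
    (∑ j, v j ⬝ᵥ x j) ^ 2 ≤
      (∑ j, a j * (v j ⬝ᵥ G⁻¹ *ᵥ v j)) * (∑ j, (x j ⬝ᵥ G *ᵥ x j) / a j) := by
  have hGi : G⁻¹.PosDef := hG.inv
  have hx0 : ∀ j, 0 ≤ x j ⬝ᵥ G *ᵥ x j := fun j => by
    have := hG.posSemidef.dotProduct_mulVec_nonneg (x j)
    simpa using this
  have hv0 : ∀ j, 0 ≤ v j ⬝ᵥ G⁻¹ *ᵥ v j := fun j => by
    have := hGi.posSemidef.dotProduct_mulVec_nonneg (v j)
    simpa using this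
  have hcs : ∀ j, |v j ⬝ᵥ x j| ≤ Real.sqrt (a j * (v j ⬝ᵥ G⁻¹ *ᵥ v j)) *
      Real.sqrt ((x j ⬝ᵥ G *ᵥ x j) / a j) := by
    intro j
    rw [← Real.sqrt_mul (mul_nonneg (ha j).le (hv0 j))]
    apply Real.abs_le_sqrt
    have e : a j * (v j ⬝ᵥ G⁻¹ *ᵥ v j) * ((x j ⬝ᵥ G *ᵥ x j) / a j) =
        (v j ⬝ᵥ G⁻¹ *ᵥ v j) * (x j ⬝ᵥ G *ᵥ x j) := by
      have := (ha j).ne'
      field_simp
    rw [e]
    exact cs_inv G hG (v j) (x j)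
  have h1 : |∑ j, v j ⬝ᵥ x j| ≤ ∑ j, Real.sqrt (a j * (v j ⬝ᵥ G⁻¹ *ᵥ v j)) *
      Real.sqrt ((x j ⬝ᵥ G *ᵥ x j) / a j) :=
    (Finset.abs_sum_le_sum_abs _ _).trans (Finset.sum_le_sum fun j _ => hcs j)
  have h2 := Finset.sum_mul_sq_le_sq_mul_sq Finset.univ
    (fun j => Real.sqrt (a j * (v j ⬝ᵥ G⁻¹ *ᵥ v j))) (fun j => Real.sqrt ((x j ⬝ᵥ G *ᵥ x j) / a j))
  have e1 : ∀ j, Real.sqrt (a j * (v j ⬝ᵥ G⁻¹ *ᵥ v j)) ^ 2 = a j * (v j ⬝ᵥ G⁻¹ *ᵥ v j) := fun j =>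
    Real.sq_sqrt (mul_nonneg (ha j).le (hv0 j))
  have e2 : ∀ j, Real.sqrt ((x j ⬝ᵥ G *ᵥ x j) / a j) ^ 2 = (x j ⬝ᵥ G *ᵥ x j) / a j := fun j =>
    Real.sq_sqrt (div_nonneg (hx0 j) (ha j).le)
  simp only [e1, e2] at h2
  rw [← sq_abs]
  exact (pow_le_pow_left₀ (abs_nonneg _) h1 2).trans h2

/-- The weighted Cauchy inequality with a multiplier: `v` is a balanced family with `∑ v_j·P_j = 1`, and
`x_j = P_j - c`, changed at the index `i` by `τ (P_i - z)`. -/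
theorem cauchy_cut (G : Matrix (Fin 3) (Fin 3) ℝ) (hG : G.PosDef) (v P : Fin 4 → Fin 3 → ℝ) (a : Fin 4 → ℝ)
    (ha : ∀ j, 0 < a j) (c z : Fin 3 → ℝ) (i : Fin 4) (τ l : ℝ)
    (hv : ∑ j, v j = 0) (h1 : ∑ j, v j ⬝ᵥ P j = 1) (hl : v i ⬝ᵥ (P i - z) = l) :
    (1 - τ * l) ^ 2 ≤ (∑ j, a j * (v j ⬝ᵥ G⁻¹ *ᵥ v j)) *
      (∑ j, ((P j - c - (if j = i then τ • (P i - z) else 0)) ⬝ᵥ
        G *ᵥ (P j - c - (if j = i then τ • (P i - z) else 0))) / a j) := by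
  have h := cauchy4 G hG v (fun j => P j - c - (if j = i then τ • (P i - z) else 0)) a ha
  have e : ∑ j, v j ⬝ᵥ (P j - c - (if j = i then τ • (P i - z) else 0)) = 1 - τ * l := by
    have e1 : ∀ j, v j ⬝ᵥ (P j - c - (if j = i then τ • (P i - z) else 0)) =
        v j ⬝ᵥ P j - v j ⬝ᵥ c - (if j = i then τ * (v i ⬝ᵥ (P i - z)) else 0) := by
      intro j
      rw [dotProduct_sub, dotProduct_sub]
      by_cases hj : j = i
      · subst hj; rw [if_pos rfl, if_pos rfl, dotProduct_smul, smul_eq_mul]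
      · rw [if_neg hj, if_neg hj, dotProduct_zero]
    simp only [e1]
    rw [Finset.sum_sub_distrib, Finset.sum_sub_distrib, h1, ← sum_dotProduct, hv, zero_dotProduct,
      Finset.sum_ite_eq' Finset.univ i, if_pos (Finset.mem_univ i), hl]
    ring
  rw [e] at h
  exact h

/-- The scatter of a Kuhn chain in the Selling parameters. -/
theorem scatter (G : Matrix (Fin 3) (Fin 3) ℝ) (hG : G.PosDef) (f g : Fin 4 → Fin 3 → ℤ) (h : Superb f g)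
    (σ : Equiv.Perm (Fin 4)) (P : Fin 4 → Fin 3 → ℝ)
    (hP1 : P 1 = P 0 + toR (f (σ 0))) (hP2 : P 2 = P 1 + toR (f (σ 1)))
    (hP3 : P 3 = P 2 + toR (f (σ 2))) (c : Fin 3 → ℝ) (hc : (4 : ℝ) • c = ∑ j, P j)
    (p : Fin 4 → Fin 4 → ℝ) (hp : ∀ i j, p i j = -(toR (f (σ i)) ⬝ᵥ G *ᵥ toR (f (σ j)))) :
    ∑ j, (P j - c) ⬝ᵥ G *ᵥ (P j - c) =
      (3 * (p 0 1 + p 0 2 + p 0 3 + p 1 2 + p 1 3 + p 2 3) + p 0 2 + p 1 3) / 4 := by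
  have h0 := row_zero G (f ∘ σ) (g ∘ σ) (superb_perm f g h σ)
  simp only [Function.comp] at h0
  have hsy : ∀ i j, toR (f (σ i)) ⬝ᵥ G *ᵥ toR (f (σ j)) = toR (f (σ j)) ⬝ᵥ G *ᵥ toR (f (σ i)) :=
    fun i j => symm_form G hG _ _
  have hc' : c = P 0 + ((3 / 4 : ℝ) • toR (f (σ 0)) + (1 / 2 : ℝ) • toR (f (σ 1)) +
      (1 / 4 : ℝ) • toR (f (σ 2))) := by
    have : c = (1 / 4 : ℝ) • ∑ j, P j := by rw [← hc, smul_smul]; norm_num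
    rw [this, Fin.sum_univ_four, hP3, hP2, hP1]
    funext k
    simp only [Pi.smul_apply, Pi.add_apply, smul_eq_mul]
    ring
  obtain ⟨b, hb⟩ : ∃ b : Fin 4 → Fin 4 → ℝ, ∀ i j, b i j = toR (f (σ i)) ⬝ᵥ G *ᵥ toR (f (σ j)) :=
    ⟨_, fun i j => rfl⟩
  have hpb : ∀ i j, p i j = -b i j := fun i j => by rw [hp, hb]
  simp only [← hb] at h0 hsy
  have e0 := h0 0
  have e1 := h0 1
  have e2 := h0 2
  simp only [Fin.sum_univ_four] at e0 e1 e2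
  rw [hsy 1 0] at e1
  rw [hsy 2 0, hsy 2 1] at e2
  have key : ∀ r s t : ℝ, (r • toR (f (σ 0)) + s • toR (f (σ 1)) + t • toR (f (σ 2))) ⬝ᵥ
      G *ᵥ (r • toR (f (σ 0)) + s • toR (f (σ 1)) + t • toR (f (σ 2))) =
      r ^ 2 * b 0 0 + s ^ 2 * b 1 1 + t ^ 2 * b 2 2 + 2 * r * s * b 0 1 + 2 * r * t * b 0 2 +
        2 * s * t * b 1 2 := by
    intro r s t
    simp only [Matrix.mulVec_add, Matrix.mulVec_smul, dotProduct_add, add_dotProduct, dotProduct_smul,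
      smul_dotProduct, smul_eq_mul, ← hb]
    rw [hsy 1 0, hsy 2 0, hsy 2 1]
    ring
  have d0 : P 0 - c = (-(3 / 4) : ℝ) • toR (f (σ 0)) + (-(1 / 2) : ℝ) • toR (f (σ 1)) +
      (-(1 / 4) : ℝ) • toR (f (σ 2)) := by
    rw [hc']; funext k; simp only [Pi.sub_apply, Pi.add_apply, Pi.smul_apply, smul_eq_mul]; ring
  have d1 : P 1 - c = (1 / 4 : ℝ) • toR (f (σ 0)) + (-(1 / 2) : ℝ) • toR (f (σ 1)) +
      (-(1 / 4) : ℝ) • toR (f (σ 2)) := by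
    rw [hP1, hc']; funext k; simp only [Pi.sub_apply, Pi.add_apply, Pi.smul_apply, smul_eq_mul]; ring
  have d2 : P 2 - c = (1 / 4 : ℝ) • toR (f (σ 0)) + (1 / 2 : ℝ) • toR (f (σ 1)) +
      (-(1 / 4) : ℝ) • toR (f (σ 2)) := by
    rw [hP2, hP1, hc']; funext k; simp only [Pi.sub_apply, Pi.add_apply, Pi.smul_apply, smul_eq_mul]; ring
  have d3 : P 3 - c = (1 / 4 : ℝ) • toR (f (σ 0)) + (1 / 2 : ℝ) • toR (f (σ 1)) +
      (3 / 4 : ℝ) • toR (f (σ 2)) := by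
    rw [hP3, hP2, hP1, hc']; funext k; simp only [Pi.sub_apply, Pi.add_apply, Pi.smul_apply, smul_eq_mul]; ring
  rw [Fin.sum_univ_four, d0, d1, d2, d3, key, key, key, key]
  simp only [hpb]
  linear_combination (3 / 4 : ℝ) * e0 + (1 : ℝ) * e1 + (3 / 4 : ℝ) * e2

end Pool.Agent.Helper21.UB
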