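import Mathlib
import Pool.Agent.Helper21.UB.Scatter

/-! S5, universal bound, leaf (5): the cut of the simplex by one more lattice point. -/

set_option autoImplicit false

namespace Pool.Agent.Helper21.UB

open Matrix Pool.Agent.Helper22.Sym

/-- two points of the standard simplex whose coordinate `k` is at most `ρ` -/
lemma simplex_cut (a b : Fin 4 → ℝ) (ha : ∀ j, 0 ≤ a j) (hb : ∀ j, 0 ≤ b j) (hsa : ∑ j, a j = 1)
    (hsb : ∑ j, b j = 1) (k : Fin 4) (ρ : ℝ) (hρ : 0 < ρ) (hρ1 : ρ ≤ 1) (hak : a k ≤ ρ) (hbk : b k ≤ ρ) :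
    ∑ j, (if j = k then (2 - ρ) / ρ else 1) * (a j - b j) ^ 2 ≤ 2 := by
  have hq : 0 ≤ (2 - ρ) / ρ := div_nonneg (by linarith) hρ.le
  have hqρ : (2 - ρ) / ρ * ρ = 2 - ρ := div_mul_cancel₀ _ hρ.ne'
  set q := (2 - ρ) / ρ with hqdef
  -- the two scalar facts
  have hs : ∀ s t : ℝ, 0 ≤ s → s ≤ t → t ≤ ρ →
      (1 - s) ^ 2 + (1 - t) ^ 2 + q * (t - s) ^ 2 ≤ 2 := by
    intro s t hs0 hst htρ
    have h1 : q * (t - s) ^ 2 ≤ q * t * (t - s) := by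
      have : (t - s) ^ 2 ≤ t * (t - s) := by nlinarith
      nlinarith [mul_le_mul_of_nonneg_left this hq]
    have h2 : q * t ≤ 2 - t := by
      have : q * t ≤ q * ρ := mul_le_mul_of_nonneg_left htρ hq
      linarith
    have h3 : q * t * (t - s) ≤ (2 - t) * (t - s) := mul_le_mul_of_nonneg_right h2 (by linarith)
    nlinarith [mul_nonneg hs0 (show (0 : ℝ) ≤ 1 - t by linarith), mul_nonneg hs0 (show (0 : ℝ) ≤ 1 - s by linarith)]
  have hoff : ∀ u w : Fin 4 → ℝ, (∀ j, 0 ≤ u j) → (∀ j, 0 ≤ w j) → ∑ j, u j = 1 → ∑ j, w j = 1 →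
      ∑ j ∈ Finset.univ.erase k, (u j - w j) ^ 2 ≤ (1 - u k) ^ 2 + (1 - w k) ^ 2 := by
    intro u w hu hw hsu hsw
    have e1 : ∑ j ∈ Finset.univ.erase k, u j = 1 - u k := by
      rw [← hsu, ← Finset.add_sum_erase Finset.univ u (Finset.mem_univ k)]; ring
    have e2 : ∑ j ∈ Finset.univ.erase k, w j = 1 - w k := by
      rw [← hsw, ← Finset.add_sum_erase Finset.univ w (Finset.mem_univ k)]; ring
    have h1 : ∑ j ∈ Finset.univ.erase k, (u j - w j) ^ 2 ≤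
        ∑ j ∈ Finset.univ.erase k, (u j ^ 2 + w j ^ 2) :=
      Finset.sum_le_sum fun j _ => by nlinarith [mul_nonneg (hu j) (hw j)]
    have h2 : ∀ f : Fin 4 → ℝ, (∀ j, 0 ≤ f j) → ∑ j ∈ Finset.univ.erase k, f j ^ 2 ≤
        (∑ j ∈ Finset.univ.erase k, f j) ^ 2 := by
      intro f hf
      rw [sq, Finset.sum_mul]
      refine Finset.sum_le_sum fun j hj => ?_
      rw [sq]
      exact mul_le_mul_of_nonneg_left (Finset.single_le_sum (fun i _ => hf i) hj) (hf j)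
    rw [Finset.sum_add_distrib] at h1
    have := h2 u hu
    have := h2 w hw
    rw [e1] at *
    rw [e2] at *
    linarith
  rw [← Finset.add_sum_erase Finset.univ _ (Finset.mem_univ k), if_pos rfl]
  have e3 : ∑ j ∈ Finset.univ.erase k, (if j = k then q else 1) * (a j - b j) ^ 2 =
      ∑ j ∈ Finset.univ.erase k, (a j - b j) ^ 2 := by
    refine Finset.sum_congr rfl fun j hj => ?_
    rw [if_neg (Finset.ne_of_mem_erase hj), one_mul]
  rw [e3]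
  have h4 := hoff a b ha hb hsa hsb
  rcases le_total (a k) (b k) with hab | hab
  · have := hs (a k) (b k) (ha k) hab hbk
    nlinarith
  · have := hs (b k) (a k) (hb k) hab hak
    nlinarith

/-- the trace of a sum of weighted squares of linear forms -/
lemma trace_sq (N : Matrix (Fin 3) (Fin 3) ℝ) (v : Fin 4 → Fin 3 → ℝ) (q : Fin 4 → ℝ) :
    ((∑ j, q j • vecMulVec (v j) (v j)) * N).trace = ∑ j, q j * (v j ⬝ᵥ N *ᵥ v j) := by
  rw [Finset.sum_mul, Matrix.trace_sum]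
  refine Finset.sum_congr rfl fun j _ => ?_
  simp only [Matrix.trace, Matrix.diag, Matrix.mul_apply, Matrix.smul_apply, vecMulVec_apply, smul_eq_mul,
    dotProduct, Matrix.mulVec, Fin.sum_univ_three]
  ring

lemma form_sq (v : Fin 4 → Fin 3 → ℝ) (q : Fin 4 → ℝ) (d : Fin 3 → ℝ) :
    d ⬝ᵥ (∑ j, q j • vecMulVec (v j) (v j)) *ᵥ d = ∑ j, q j * (v j ⬝ᵥ d) ^ 2 := by
  simp only [Fin.sum_univ_four, dotProduct, Matrix.mulVec, Fin.sum_univ_three, Matrix.add_apply,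
    Matrix.smul_apply, vecMulVec_apply, smul_eq_mul]
  ring

lemma psd_sq (v : Fin 4 → Fin 3 → ℝ) (q : Fin 4 → ℝ) (hq : ∀ j, 0 ≤ q j) :
    (∑ j, q j • vecMulVec (v j) (v j)).PosSemidef := by
  refine Matrix.posSemidef_sum _ fun j _ => ?_
  have h := Matrix.posSemidef_vecMulVec_self_star (v j)
  have hs : (star (v j)) = v j := by funext i; simp
  rw [hs] at h
  exact h.smul (hq j)

/-- **The sum of the squared lengths of a balanced family, with a cut.** -/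
theorem cut_sum (K : Set (Fin 3 → ℝ)) (G : Matrix (Fin 3) (Fin 3) ℝ)
    (hopt : ∀ Q : Matrix (Fin 3) (Fin 3) ℝ, Q.PosSemidef →
      (∀ x ∈ K, ∀ x' ∈ K, (x - x') ⬝ᵥ Q *ᵥ (x - x') ≤ 1) → (Q * G⁻¹).trace ≤ 3)
    (v P : Fin 4 → Fin 3 → ℝ) (hv : ∑ j, v j = 0) (h1 : ∑ j, v j ⬝ᵥ P j = 1)
    (hK : ∀ j, ∀ x ∈ K, 0 ≤ v j ⬝ᵥ (P j - x)) (k : Fin 4) (ρ : ℝ) (hρ : 0 < ρ) (hρ1 : ρ ≤ 1)
    (hk : ∀ x ∈ K, v k ⬝ᵥ (P k - x) ≤ ρ) :
    ∑ j, (if j = k then (2 - ρ) / ρ else 1) * (v j ⬝ᵥ G⁻¹ *ᵥ v j) ≤ 6 := by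
  have hsum : ∀ x : Fin 3 → ℝ, ∑ j, v j ⬝ᵥ (P j - x) = 1 := by
    intro x
    simp only [dotProduct_sub]
    rw [Finset.sum_sub_distrib, h1, ← sum_dotProduct, hv, zero_dotProduct, sub_zero]
  have hq : 0 ≤ (2 - ρ) / ρ := div_nonneg (by linarith) hρ.le
  have h := hopt (∑ j, ((1 / 2 : ℝ) * (if j = k then (2 - ρ) / ρ else 1)) • vecMulVec (v j) (v j))
    (psd_sq v _ fun j => by split_ifs <;> positivity)
    (fun x hx x' hx' => by
      rw [form_sq]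
      have hc := simplex_cut (fun j => v j ⬝ᵥ (P j - x')) (fun j => v j ⬝ᵥ (P j - x))
        (fun j => hK j x' hx') (fun j => hK j x hx) (hsum x') (hsum x) k ρ hρ hρ1 (hk x' hx') (hk x hx)
      have e : ∀ j, v j ⬝ᵥ (P j - x') - v j ⬝ᵥ (P j - x) = v j ⬝ᵥ (x - x') := by
        intro j; rw [← dotProduct_sub]; congr 1; abel
      simp only [e] at hc
      have e2 : ∑ j, 1 / 2 * (if j = k then (2 - ρ) / ρ else 1) * (v j ⬝ᵥ (x - x')) ^ 2 =
          1 / 2 * ∑ j, (if j = k then (2 - ρ) / ρ else 1) * (v j ⬝ᵥ (x - x')) ^ 2 := by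
        rw [Finset.mul_sum]; exact Finset.sum_congr rfl fun j _ => by ring
      rw [e2]; linarith)
  rw [trace_sq] at h
  have e3 : ∑ j, 1 / 2 * (if j = k then (2 - ρ) / ρ else 1) * (v j ⬝ᵥ G⁻¹ *ᵥ v j) =
      1 / 2 * ∑ j, (if j = k then (2 - ρ) / ρ else 1) * (v j ⬝ᵥ G⁻¹ *ᵥ v j) := by
    rw [Finset.mul_sum]; exact Finset.sum_congr rfl fun j _ => by ring
  rw [e3] at h
  linarith

/-- **The cut.** A point `z` of the simplex which is weakly separated from `K` bounds one of the barycentric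
coordinates on `K`. -/
theorem exists_cut (K : Set (Fin 3 → ℝ)) (v P : Fin 4 → Fin 3 → ℝ) (hv : ∑ j, v j = 0)
    (h1 : ∑ j, v j ⬝ᵥ P j = 1) (hK : ∀ j, ∀ x ∈ K, 0 ≤ v j ⬝ᵥ (P j - x))
    (z h : Fin 3 → ℝ) (hz : ∀ j, 0 ≤ v j ⬝ᵥ (P j - z)) (h0 : h ≠ 0) (hsep : ∀ x ∈ K, h ⬝ᵥ x ≤ h ⬝ᵥ z)
    (cc : Fin 4 → ℝ) (hcc : h = ∑ j, cc j • v j) :
    ∃ i k : Fin 4, i ≠ k ∧ ∀ x ∈ K, v k ⬝ᵥ (P k - x) ≤ 1 - v i ⬝ᵥ (P i - z) := by
  have hsum : ∀ x : Fin 3 → ℝ, ∑ j, v j ⬝ᵥ (P j - x) = 1 := by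
    intro x
    simp only [dotProduct_sub]
    rw [Finset.sum_sub_distrib, h1, ← sum_dotProduct, hv, zero_dotProduct, sub_zero]
  obtain ⟨i, -, hi⟩ := Finset.exists_max_image Finset.univ cc ⟨0, Finset.mem_univ 0⟩
  obtain ⟨k, -, hk⟩ := Finset.exists_min_image Finset.univ cc ⟨0, Finset.mem_univ 0⟩
  have hik : cc k < cc i := by
    by_contra hcon
    push Not at hcon
    apply h0
    have hall : ∀ j, cc j = cc k := fun j =>
      le_antisymm ((hi j (Finset.mem_univ j)).trans hcon) (hk j (Finset.mem_univ j))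
    rw [hcc]
    calc ∑ j, cc j • v j = ∑ j, cc k • v j := Finset.sum_congr rfl fun j _ => by rw [hall j]
      _ = cc k • ∑ j, v j := by rw [Finset.smul_sum]
      _ = 0 := by rw [hv, smul_zero]
  refine ⟨i, k, fun e => by rw [e] at hik; exact lt_irrefl _ hik, fun x hx => ?_⟩
  have hs := hsep x hx
  have e1 : ∀ y : Fin 3 → ℝ, h ⬝ᵥ y = ∑ j, cc j * (v j ⬝ᵥ y) := by
    intro y; rw [hcc, sum_dotProduct]
    exact Finset.sum_congr rfl fun j _ => by rw [smul_dotProduct, smul_eq_mul]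
  have h2 : ∑ j, cc j * (v j ⬝ᵥ (P j - z)) ≤ ∑ j, cc j * (v j ⬝ᵥ (P j - x)) := by
    simp only [dotProduct_sub, mul_sub, Finset.sum_sub_distrib]
    rw [← e1 z, ← e1 x]
    linarith
  have hx0 : ∀ j, 0 ≤ v j ⬝ᵥ (P j - x) := fun j => hK j x hx
  have hsx := hsum x
  have hsz := hsum z
  have h3 : ∑ j, (cc j - cc k) * (v j ⬝ᵥ (P j - z)) ≤ ∑ j, (cc j - cc k) * (v j ⬝ᵥ (P j - x)) := by
    simp only [sub_mul, Finset.sum_sub_distrib]
    rw [← Finset.mul_sum, ← Finset.mul_sum, hsx, hsz]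
    linarith
  have h4 : (cc i - cc k) * (v i ⬝ᵥ (P i - z)) ≤ ∑ j, (cc j - cc k) * (v j ⬝ᵥ (P j - z)) :=
    Finset.single_le_sum (f := fun j => (cc j - cc k) * (v j ⬝ᵥ (P j - z)))
      (fun j _ => mul_nonneg (sub_nonneg.2 (hk j (Finset.mem_univ j))) (hz j)) (Finset.mem_univ i)
  have h5 : ∑ j, (cc j - cc k) * (v j ⬝ᵥ (P j - x)) ≤ (cc i - cc k) * (1 - v k ⬝ᵥ (P k - x)) := by
    have e2 : 1 - v k ⬝ᵥ (P k - x) = ∑ j ∈ Finset.univ.erase k, v j ⬝ᵥ (P j - x) := by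
      rw [← hsx, ← Finset.add_sum_erase Finset.univ _ (Finset.mem_univ k)]; ring
    rw [e2, ← Finset.add_sum_erase Finset.univ _ (Finset.mem_univ k), sub_self, zero_mul, zero_add,
      Finset.mul_sum]
    exact Finset.sum_le_sum fun j _ =>
      mul_le_mul_of_nonneg_right (by linarith [hi j (Finset.mem_univ j)]) (hx0 j)
  have h6 := (h4.trans h3).trans h5
  have := le_of_mul_le_mul_left h6 (sub_pos.2 hik)
  linarith

end Pool.Agent.Helper21.UB
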